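import Pool.Agent.Lib_helper69.HM.B3
import Pool.Agent.Lib_helper69.HM.D2
import Pool.Agent.Lib_helper69.HM.P2
import Pool.Agent.Lib_helper69.HM.S2

open MeasureTheory Finset Filter
open scoped ENNReal

namespace Pool.Agent.HM

theorem B4_tr_bd {L : ℝ} (hL : 0 ≤ L) (t : ℝ) : -L ≤ tr L t ∧ tr L t ≤ L := by
  unfold tr
  exact ⟨le_max_left _ _, max_le (by linarith) (min_le_right _ _)⟩

theorem B4_tr_meas (L : ℝ) : Measurable (tr L) := by
  unfold tr
  exact measurable_const.max (measurable_id.min measurable_const)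

theorem B4_gsum_meas (L : ℝ) (x : ℤ × ℤ) (k : ℕ) : Measurable (gsum L x k) := by
  unfold gsum
  refine Finset.measurable_sum _ fun y _ => ?_
  exact (((B4_tr_meas L).comp (measurable_pi_apply y)).add_const L).mul
    (((B4_tr_meas L).comp (measurable_pi_apply (y + x))).add_const L)

theorem B4_gsum_nonneg {L : ℝ} (hL : 0 ≤ L) (x : ℤ × ℤ) (k : ℕ) (f : ℤ × ℤ → ℝ) :
    0 ≤ gsum L x k f := by
  unfold gsum
  refine Finset.sum_nonneg fun y _ => ?_
  have h1 := (B4_tr_bd hL (f y)).1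
  have h2 := (B4_tr_bd hL (f (y + x))).1
  exact mul_nonneg (by linarith) (by linarith)

theorem B4_gsum_le {L : ℝ} (hL : 0 ≤ L) (x : ℤ × ℤ) (k : ℕ) (f : ℤ × ℤ → ℝ) :
    gsum L x k f ≤ 4 * L ^ 2 * (box (k ^ 4 - (x.1.natAbs + x.2.natAbs))).card := by
  unfold gsum
  calc _ ≤ ∑ _y ∈ box (k ^ 4 - (x.1.natAbs + x.2.natAbs)), 4 * L ^ 2 := by
        refine Finset.sum_le_sum fun y _ => ?_
        have h1 := B4_tr_bd hL (f y)
        have h2 := B4_tr_bd hL (f (y + x))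
        calc (tr L (f y) + L) * (tr L (f (y + x)) + L) ≤ (2 * L) * (2 * L) :=
              mul_le_mul (by linarith [h1.2]) (by linarith [h2.2]) (by linarith [h2.1])
                (by linarith)
          _ = 4 * L ^ 2 := by ring
    _ = _ := by rw [Finset.sum_const, nsmul_eq_mul]; ring

theorem B4_mem_box {n : ℕ} {y : ℤ × ℤ} :
    y ∈ box n ↔ (-(n : ℤ) ≤ y.1 ∧ y.1 ≤ n) ∧ (-(n : ℤ) ≤ y.2 ∧ y.2 ≤ n) := by
  unfold box
  rw [mem_product, mem_Icc, mem_Icc]

theorem B4_box_mono {a b : ℕ} (h : a ≤ b) : box a ⊆ box b := by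
  intro y hy
  rw [B4_mem_box] at hy ⊢
  have : (a : ℤ) ≤ b := by exact_mod_cast h
  omega

theorem B4_box_card (n : ℕ) : (box n).card = (2 * n + 1) ^ 2 := by
  unfold box
  rw [card_product, Int.card_Icc]
  have : ((n : ℤ) + 1 - (-(n : ℤ))).toNat = 2 * n + 1 := by omega
  rw [this]
  ring

theorem B4_gsum_dep {L : ℝ} (x : ℤ × ℤ) {k : ℕ} (hr : x.1.natAbs + x.2.natAbs ≤ k ^ 4)
    {f g : ℤ × ℤ → ℝ} (h : ∀ y ∈ box (k ^ 4 + 1), f y = g y) : gsum L x k f = gsum L x k g := by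
  unfold gsum
  refine Finset.sum_congr rfl fun y hy => ?_
  have h1 : y ∈ box (k ^ 4 + 1) := B4_box_mono (by omega) hy
  have h2 : y + x ∈ box (k ^ 4 + 1) := by
    rw [B4_mem_box] at hy ⊢
    obtain ⟨⟨ha, hb⟩, hc, hd⟩ := hy
    generalize hK : k ^ 4 = K at *
    simp only [Prod.fst_add, Prod.snd_add]
    omega
  rw [h y h1, h _ h2]

/-- the bounds for one boundary condition -/
theorem B4_loc {ρ : ℝ → ℝ} (hρ : EdgeWeight ρ) {m : ℝ} (hm : 0 < m) {L : ℝ} (hL : 0 ≤ L)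
    (x : ℤ × ℤ) {k : ℕ} {e δ : ℝ} {ξ : ℤ × ℤ → ℝ}
    (h : lm (box (k ^ 4)) (wt ρ m zstp (box (k ^ 4))) ξ ≠ 0 →
      |∫ f, gsum L x k f ∂gib (wt ρ m zstp (box (k ^ 4))) (box (k ^ 4)) ξ - e| ≤ δ) :
    ENNReal.ofReal (e - δ) * lm (box (k ^ 4)) (wt ρ m zstp (box (k ^ 4))) ξ ≤
      lm (box (k ^ 4)) (fun g => ENNReal.ofReal (gsum L x k g) *
        wt ρ m zstp (box (k ^ 4)) g) ξ ∧
    lm (box (k ^ 4)) (fun g => ENNReal.ofReal (gsum L x k g) *
        wt ρ m zstp (box (k ^ 4)) g) ξ ≤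
      ENNReal.ofReal (e + δ) * lm (box (k ^ 4)) (wt ρ m zstp (box (k ^ 4))) ξ := by
  set Λ := box (k ^ 4) with hΛ
  set w := wt ρ m zstp Λ with hw
  have hwm : Measurable w := (nice_wt hρ m zstp Λ).meas
  by_cases hZ : lm Λ w ξ = 0
  · have h0 : lm Λ (fun g => ENNReal.ofReal (gsum L x k g) * w g) ξ = 0 := by
      refine le_antisymm ?_ bot_le
      calc lm Λ (fun g => ENNReal.ofReal (gsum L x k g) * w g) ξ
          ≤ lm Λ (fun g => ENNReal.ofReal
              (4 * L ^ 2 * (box (k ^ 4 - (x.1.natAbs + x.2.natAbs))).card) * w g) ξ := by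
            unfold lm lmarginal
            refine lintegral_mono fun y => ?_
            exact mul_le_mul_left (ENNReal.ofReal_le_ofReal (B4_gsum_le hL x k _)) _
        _ = ENNReal.ofReal (4 * L ^ 2 * (box (k ^ 4 - (x.1.natAbs + x.2.natAbs))).card) *
              lm Λ w ξ := by
            unfold lm lmarginal
            rw [lintegral_const_mul' _ _ ENNReal.ofReal_ne_top]
        _ = 0 := by rw [hZ, mul_zero]
        _ ≤ 0 := le_rfl
    rw [h0, hZ, mul_zero, mul_zero]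
    exact ⟨le_rfl, le_rfl⟩
  · have hZ1 : lm Λ w ξ ≠ ∞ := (lm_wt_lt_top hρ hm zstp Λ ξ).ne
    have hP := gib_prob hwm Λ ξ hZ hZ1
    have hint : Integrable (gsum L x k) (gib w Λ ξ) := by
      refine Integrable.of_bound (C := 4 * L ^ 2 *
        (box (k ^ 4 - (x.1.natAbs + x.2.natAbs))).card)
        (B4_gsum_meas L x k).aestronglyMeasurable (Eventually.of_forall fun f => ?_)
      rw [Real.norm_eq_abs, abs_of_nonneg (B4_gsum_nonneg hL x k f)]
      exact B4_gsum_le hL x k f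
    have h1 : ENNReal.ofReal (∫ f, gsum L x k f ∂gib w Λ ξ) =
        ∫⁻ f, ENNReal.ofReal (gsum L x k f) ∂gib w Λ ξ :=
      ofReal_integral_eq_lintegral_ofReal hint
        (Eventually.of_forall fun f => B4_gsum_nonneg hL x k f)
    have h2 := lintegral_gib hwm Λ ξ (F := fun f => ENNReal.ofReal (gsum L x k f))
      (B4_gsum_meas L x k).ennreal_ofReal
    have h3 : lm Λ (fun g => ENNReal.ofReal (gsum L x k g) * w g) ξ =
        ENNReal.ofReal (∫ f, gsum L x k f ∂gib w Λ ξ) * lm Λ w ξ := by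
      rw [h1, h2, mul_comm, ← mul_assoc, ENNReal.mul_inv_cancel hZ hZ1, one_mul]
    have h4 := abs_le.1 (h hZ)
    rw [h3]
    constructor
    · exact mul_le_mul_left (ENNReal.ofReal_le_ofReal (by linarith [h4.1])) _
    · exact mul_le_mul_left (ENNReal.ofReal_le_ofReal (by linarith [h4.2])) _

/-- the fields which are at most `k` around the box `k ^ 4` -/
def B4_S (N : ℕ) (κ : Bool) (k : ℕ) : Set (Tor N → ℝ) :=
  {f | ∀ y ∈ box (k ^ 4 + 1) \ box (k ^ 4), |f (proj N κ y)| ≤ k}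

theorem B4_S_meas (N : ℕ) (κ : Bool) (k : ℕ) : MeasurableSet (B4_S N κ k) := by
  have : B4_S N κ k = ⋂ y ∈ box (k ^ 4 + 1) \ box (k ^ 4),
      {f : Tor N → ℝ | |f (proj N κ y)| ≤ k} := by
    ext f
    simp only [B4_S, Set.mem_ofPred_eq, Set.mem_iInter]
  rw [this]
  refine Finset.measurableSet_biInter _ fun y _ => ?_
  exact measurableSet_le (measurable_norm.comp (measurable_pi_apply (proj N κ y)))
    measurable_const

theorem B4_comp_meas (N : ℕ) (κ : Bool) :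
    Measurable (fun f : Tor N → ℝ => f ∘ proj N κ) :=
  measurable_pi_lambda _ fun y => measurable_pi_apply (proj N κ y)

theorem B4_wt_dep (ρ : ℝ → ℝ) (m : ℝ) (n : ℕ) {f g : ℤ × ℤ → ℝ}
    (h : ∀ y ∈ box (n + 1), f y = g y) :
    wt ρ m zstp (box n) f = wt ρ m zstp (box n) g := by
  refine wt_congr ρ m zstp (box n) (fun y hy => h y (B4_box_mono (Nat.le_succ n) hy)) ?_
  intro p hp
  obtain ⟨h1, h2⟩ := box_nbr (Finset.Subset.refl (box n)) hp
  exact ⟨h _ h1, h _ h2⟩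

/-- the bounds on the torus, in the set of fields which are at most `k` around the box -/
theorem B4_core {ρ : ℝ → ℝ} (hρ : EdgeWeight ρ) {m : ℝ} (hm : 0 < m) {L : ℝ} (hL : 0 ≤ L)
    (x : ℤ × ℤ) {k : ℕ} (hr : x.1.natAbs + x.2.natAbs ≤ k ^ 4) {e δ : ℝ}
    (h : ∀ ξ : ℤ × ℤ → ℝ, (∀ y ∈ box (k ^ 4 + 1), |ξ y| ≤ k) →
      lm (box (k ^ 4)) (wt ρ m zstp (box (k ^ 4))) ξ ≠ 0 →
      |∫ f, gsum L x k f ∂gib (wt ρ m zstp (box (k ^ 4))) (box (k ^ 4)) ξ - e| ≤ δ)
    {N : ℕ} (hN : 2 * (k ^ 4 + 1) ≤ N) (κ : Bool) :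
    ENNReal.ofReal (e - δ) * muT ρ m N κ (B4_S N κ k) ≤
      ∫⁻ f in B4_S N κ k, ENNReal.ofReal (gsum L x k (f ∘ proj N κ)) ∂muT ρ m N κ ∧
    ∫⁻ f in B4_S N κ k, ENNReal.ofReal (gsum L x k (f ∘ proj N κ)) ∂muT ρ m N κ ≤
      ENNReal.ofReal (e + δ) * muT ρ m N κ (B4_S N κ k) := by
  have hwm : Measurable (wt ρ m (stpT N κ) univ) := (nice_wt hρ m (stpT N κ) univ).meas
  have hFm : Measurable fun f : Tor N → ℝ => ENNReal.ofReal (gsum L x k (f ∘ proj N κ)) :=
    ((B4_gsum_meas L x k).comp (B4_comp_meas N κ)).ennreal_ofReal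
  have hdep1 : ∀ f g : ℤ × ℤ → ℝ, (∀ y ∈ box (k ^ 4 + 1), f y = g y) →
      ENNReal.ofReal (gsum L x k f) = ENNReal.ofReal (gsum L x k g) := fun f g hfg => by
    rw [B4_gsum_dep x hr hfg]
  have hsub : box (k ^ 4) ⊆ box (k ^ 4) := Finset.Subset.refl _
  have hdepS : ∀ f g : Tor N → ℝ, (∀ y ∉ (box (k ^ 4)).image (proj N κ), f y = g y) →
      (f ∈ B4_S N κ k ↔ g ∈ B4_S N κ k) := by
    intro f g hfg
    have hy : ∀ y ∈ box (k ^ 4 + 1) \ box (k ^ 4), f (proj N κ y) = g (proj N κ y) := by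
      intro y hy
      refine hfg _ fun hmem => ?_
      obtain ⟨z, hz, hzy⟩ := mem_image.1 hmem
      rw [Finset.mem_sdiff] at hy
      have := proj_inj hN κ (mem_coe.2 (B4_box_mono (Nat.le_succ _) hz)) (mem_coe.2 hy.1) hzy
      exact hy.2 (this ▸ hz)
    simp only [B4_S, Set.mem_ofPred_eq]
    constructor
    · intro hf y hy'
      rw [← hy y hy']
      exact hf y hy'
    · intro hf y hy'
      rw [hy y hy']
      exact hf y hy'
  have hloc : ∀ f ∈ B4_S N κ k,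
      ENNReal.ofReal (e - δ) * lm ((box (k ^ 4)).image (proj N κ))
        (wt ρ m (stpT N κ) ((box (k ^ 4)).image (proj N κ))) f ≤
      lm ((box (k ^ 4)).image (proj N κ)) (fun g => ENNReal.ofReal (gsum L x k (g ∘ proj N κ)) *
        wt ρ m (stpT N κ) ((box (k ^ 4)).image (proj N κ)) g) f ∧
      lm ((box (k ^ 4)).image (proj N κ)) (fun g => ENNReal.ofReal (gsum L x k (g ∘ proj N κ)) *
        wt ρ m (stpT N κ) ((box (k ^ 4)).image (proj N κ)) g) f ≤
      ENNReal.ofReal (e + δ) * lm ((box (k ^ 4)).image (proj N κ))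
        (wt ρ m (stpT N κ) ((box (k ^ 4)).image (proj N κ))) f := by
    intro f hf
    have e1 := lm_proj hρ m hN κ hsub (F := fun g => ENNReal.ofReal (gsum L x k g))
      (B4_gsum_meas L x k).ennreal_ofReal hdep1 f
    have e2 := lm_proj hρ m hN κ hsub (F := fun _ => 1) measurable_const
      (fun _ _ _ => rfl) f
    simp only [one_mul] at e2
    set ξ : ℤ × ℤ → ℝ := fun y => if y ∈ box (k ^ 4 + 1) \ box (k ^ 4) then
      f (proj N κ y) else 0 with hξ
    have hξb : ∀ y ∈ box (k ^ 4 + 1), |ξ y| ≤ k := by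
      intro y _
      by_cases hy : y ∈ box (k ^ 4 + 1) \ box (k ^ 4)
      · simp only [hξ, if_pos hy]
        exact hf y hy
      · simp only [hξ, if_neg hy, abs_zero]
        exact Nat.cast_nonneg k
    have hag : ∀ y ∈ box (k ^ 4 + 1), y ∉ box (k ^ 4) → (f ∘ proj N κ) y = ξ y := by
      intro y hy hy'
      simp only [hξ, if_pos (Finset.mem_sdiff.2 ⟨hy, hy'⟩), Function.comp_apply]
    have e3 : lm (box (k ^ 4)) (fun g => ENNReal.ofReal (gsum L x k g) *
        wt ρ m zstp (box (k ^ 4)) g) (f ∘ proj N κ) =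
        lm (box (k ^ 4)) (fun g => ENNReal.ofReal (gsum L x k g) *
        wt ρ m zstp (box (k ^ 4)) g) ξ := by
      refine lm_congr_on (A := box (k ^ 4 + 1)) (fun g g' hg => ?_) _ hag
      rw [hdep1 g g' hg, B4_wt_dep ρ m (k ^ 4) hg]
    have e4 : lm (box (k ^ 4)) (wt ρ m zstp (box (k ^ 4))) (f ∘ proj N κ) =
        lm (box (k ^ 4)) (wt ρ m zstp (box (k ^ 4))) ξ :=
      lm_congr_on (A := box (k ^ 4 + 1)) (fun g g' hg => B4_wt_dep ρ m (k ^ 4) hg) _ hag
    have e5 := B4_loc hρ hm hL x (k := k) (e := e) (δ := δ) (ξ := ξ) (h ξ hξb)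
    rw [← e3, ← e4] at e5
    rw [e1]
    have e2' : lm ((box (k ^ 4)).image (proj N κ))
        (wt ρ m (stpT N κ) ((box (k ^ 4)).image (proj N κ))) f =
        lm (box (k ^ 4)) (wt ρ m zstp (box (k ^ 4))) (f ∘ proj N κ) := e2
    rw [e2']
    exact e5
  have hge := dlr_ge hρ m (stpT N κ) (W := univ) (subset_univ ((box (k ^ 4)).image (proj N κ)))
    hFm (B4_S_meas N κ k) hdepS (fun f hf => (hloc f hf).1) 0
  have hle := dlr_le hρ m (stpT N κ) (W := univ) (subset_univ ((box (k ^ 4)).image (proj N κ)))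
    hFm (B4_S_meas N κ k) hdepS (fun f hf => (hloc f hf).2) 0
  have hμS : muT ρ m N κ (B4_S N κ k) = (lm univ (wt ρ m (stpT N κ) univ) 0)⁻¹ *
      lm univ ((B4_S N κ k).indicator (wt ρ m (stpT N κ) univ)) 0 := by
    unfold muT
    exact gib_apply hwm univ 0 (B4_S_meas N κ k)
  have hI : ∫⁻ f in B4_S N κ k, ENNReal.ofReal (gsum L x k (f ∘ proj N κ)) ∂muT ρ m N κ =
      (lm univ (wt ρ m (stpT N κ) univ) 0)⁻¹ *
      lm univ ((B4_S N κ k).indicator fun g => ENNReal.ofReal (gsum L x k (g ∘ proj N κ)) *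
        wt ρ m (stpT N κ) univ g) 0 := by
    rw [← lintegral_indicator (B4_S_meas N κ k)]
    unfold muT
    rw [lintegral_gib hwm univ 0 (hFm.indicator (B4_S_meas N κ k))]
    congr 2
    funext f
    by_cases hf : f ∈ B4_S N κ k
    · rw [Set.indicator_of_mem hf, Set.indicator_of_mem hf]
    · rw [Set.indicator_of_notMem hf, Set.indicator_of_notMem hf, zero_mul]
  rw [hμS, hI]
  constructor
  · rw [mul_left_comm]
    exact mul_le_mul_right hge _
  · rw [mul_left_comm]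
    exact mul_le_mul_right hle _

/-- Markov inequality with the sixth moment -/
theorem B4_markov {ρ : ℝ → ℝ} (hρ : EdgeWeight ρ) {m : ℝ} (hm : 0 < m) {C : ℝ}
    (hC : ∀ (N : ℕ) (k : Bool) (x : Tor N), ∫ f, f x ^ 6 ∂muT ρ m N k ≤ C)
    (N : ℕ) (κ : Bool) {k : ℕ} (hk : 0 < k) :
    (muT ρ m N κ).real (B4_S N κ k)ᶜ ≤ 16 * C / (k : ℝ) ^ 2 := by
  have hP := muT_prob hρ hm N κ
  have hk' : (0 : ℝ) < k := by exact_mod_cast hk
  have hC0 : 0 ≤ C := le_trans (integral_nonneg fun f => by positivity) (hC N κ 0)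
  have hone : ∀ z : Tor N, (muT ρ m N κ).real {f | (k : ℝ) < |f z|} ≤ C / (k : ℝ) ^ 6 := by
    intro z
    have h1 := mul_meas_ge_le_integral_of_nonneg (μ := muT ρ m N κ)
      (f := fun f : Tor N → ℝ => f z ^ 6) (Eventually.of_forall fun f => by positivity)
      (muT_integrable_pow hρ hm N κ z 6) ((k : ℝ) ^ 6)
    have h2 : (muT ρ m N κ).real {f | (k : ℝ) < |f z|} ≤
        (muT ρ m N κ).real {f : Tor N → ℝ | (k : ℝ) ^ 6 ≤ f z ^ 6} := by
      refine measureReal_mono (fun f hf => ?_)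
      have hf' : (k : ℝ) < |f z| := hf
      show (k : ℝ) ^ 6 ≤ f z ^ 6
      calc (k : ℝ) ^ 6 ≤ |f z| ^ 6 := by gcongr
        _ = f z ^ 6 := by
          rw [show (6 : ℕ) = 2 * 3 from rfl, pow_mul, pow_mul, sq_abs]
    have h3 : (k : ℝ) ^ 6 * (muT ρ m N κ).real {f | (k : ℝ) < |f z|} ≤ C :=
      le_trans (mul_le_mul_of_nonneg_left h2 (by positivity)) (le_trans h1 (hC N κ z))
    rw [le_div_iff₀ (by positivity)]
    linarith [h3]
  have hsub : (B4_S N κ k)ᶜ ⊆ ⋃ y ∈ box (k ^ 4 + 1) \ box (k ^ 4),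
      {f : Tor N → ℝ | (k : ℝ) < |f (proj N κ y)|} := by
    intro f hf
    have hf' : ¬ ∀ y ∈ box (k ^ 4 + 1) \ box (k ^ 4), |f (proj N κ y)| ≤ k := hf
    push Not at hf'
    obtain ⟨y, hy, hyk⟩ := hf'
    exact Set.mem_biUnion hy hyk
  have hcard : ((box (k ^ 4 + 1) \ box (k ^ 4)).card : ℝ) ≤ 16 * (k : ℝ) ^ 4 := by
    have h1 : (box (k ^ 4 + 1) \ box (k ^ 4)).card ≤ 16 * k ^ 4 := by
      rw [Finset.card_sdiff_of_subset (B4_box_mono (Nat.le_succ _)), B4_box_card, B4_box_card]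
      have h2 : 1 ≤ k ^ 4 := Nat.one_le_pow _ _ hk
      generalize k ^ 4 = K at *
      have : (2 * (K + 1) + 1) ^ 2 = (2 * K + 1) ^ 2 + (8 * K + 8) := by ring
      rw [this]
      omega
    exact_mod_cast h1
  calc (muT ρ m N κ).real (B4_S N κ k)ᶜ
      ≤ (muT ρ m N κ).real (⋃ y ∈ box (k ^ 4 + 1) \ box (k ^ 4),
          {f : Tor N → ℝ | (k : ℝ) < |f (proj N κ y)|}) :=
        measureReal_mono hsub (measure_ne_top _ _)
    _ ≤ ∑ y ∈ box (k ^ 4 + 1) \ box (k ^ 4),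
          (muT ρ m N κ).real {f : Tor N → ℝ | (k : ℝ) < |f (proj N κ y)|} :=
        measureReal_biUnion_finset_le _ _
    _ ≤ ∑ _y ∈ box (k ^ 4 + 1) \ box (k ^ 4), C / (k : ℝ) ^ 6 :=
        Finset.sum_le_sum fun y _ => hone _
    _ = (box (k ^ 4 + 1) \ box (k ^ 4)).card * (C / (k : ℝ) ^ 6) := by
        rw [Finset.sum_const, nsmul_eq_mul]
    _ ≤ (16 * (k : ℝ) ^ 4) * (C / (k : ℝ) ^ 6) :=
        mul_le_mul_of_nonneg_right hcard (by positivity)
    _ = 16 * C / (k : ℝ) ^ 2 := by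
        field_simp

/-- the average of the products over the box -/
theorem B4_avg {ρ : ℝ → ℝ} (hρ : EdgeWeight ρ) {m : ℝ} (hm : 0 < m) {L : ℝ} (hL : 0 ≤ L)
    (x : ℤ × ℤ) (k : ℕ) (N : ℕ) (κ : Bool) :
    ∫ f, gsum L x k (f ∘ proj N κ) ∂muT ρ m N κ =
      (box (k ^ 4 - (x.1.natAbs + x.2.natAbs))).card * (dN ρ m L N κ x + L ^ 2) := by
  have hP := muT_prob hρ hm N κ
  have htr : ∀ z : Tor N, Measurable fun f : Tor N → ℝ => tr L (f z) := fun z =>
    (B4_tr_meas L).comp (measurable_pi_apply z)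
  have hb : ∀ (z : Tor N) (f : Tor N → ℝ), |tr L (f z)| ≤ L := fun z f =>
    abs_le.2 (B4_tr_bd hL (f z))
  have i1 : ∀ z : Tor N, Integrable (fun f : Tor N → ℝ => tr L (f z)) (muT ρ m N κ) :=
    fun z => Integrable.of_bound (C := L) (htr z).aestronglyMeasurable
      (Eventually.of_forall fun f => hb z f)
  have i2 : ∀ z z' : Tor N, Integrable (fun f : Tor N → ℝ => tr L (f z) * tr L (f z'))
      (muT ρ m N κ) := fun z z' =>
    Integrable.of_bound (C := L * L) ((htr z).mul (htr z')).aestronglyMeasurable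
      (Eventually.of_forall fun f => by
        rw [norm_mul]
        exact mul_le_mul (hb z f) (hb z' f) (norm_nonneg _) hL)
  have hterm : ∀ y : ℤ × ℤ, ∫ f : Tor N → ℝ, (tr L (f (proj N κ y)) + L) *
      (tr L (f (proj N κ (y + x))) + L) ∂muT ρ m N κ = dN ρ m L N κ x + L ^ 2 := by
    intro y
    have e1 : ∀ f : Tor N → ℝ, (tr L (f (proj N κ y)) + L) *
      (tr L (f (proj N κ (y + x))) + L) =
      ((tr L (f (proj N κ (y + x))) * tr L (f (proj N κ y)) +
        L * tr L (f (proj N κ y))) + L * tr L (f (proj N κ (y + x)))) + L ^ 2 := fun f => by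
      ring
    have hd := dN_two hρ hm hL N κ (y + x) y
    rw [add_sub_cancel_left] at hd
    have j1 : Integrable (fun f : Tor N → ℝ => L * tr L (f (proj N κ y))) (muT ρ m N κ) :=
      (i1 _).const_mul L
    have j2 : Integrable (fun f : Tor N → ℝ => L * tr L (f (proj N κ (y + x))))
      (muT ρ m N κ) := (i1 _).const_mul L
    have j3 : Integrable (fun f : Tor N → ℝ => tr L (f (proj N κ (y + x))) *
      tr L (f (proj N κ y)) + L * tr L (f (proj N κ y))) (muT ρ m N κ) := (i2 _ _).add j1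
    have j4 : Integrable (fun f : Tor N → ℝ => (tr L (f (proj N κ (y + x))) *
      tr L (f (proj N κ y)) + L * tr L (f (proj N κ y))) +
      L * tr L (f (proj N κ (y + x)))) (muT ρ m N κ) := j3.add j2
    rw [integral_congr_ae (Eventually.of_forall e1), integral_add j4 (integrable_const _),
      integral_add j3 j2, integral_add (i2 _ _) j1, integral_const_mul, integral_const_mul,
      muT_tr_mean hρ hm, muT_tr_mean hρ hm, hd, integral_const, probReal_univ]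
    all_goals first | exact hL | simp
  have hi : ∀ y ∈ box (k ^ 4 - (x.1.natAbs + x.2.natAbs)), Integrable
      (fun f : Tor N → ℝ => (tr L (f (proj N κ y)) + L) *
      (tr L (f (proj N κ (y + x))) + L)) (muT ρ m N κ) := fun y _ =>
    Integrable.of_bound (C := (2 * L) * (2 * L))
      (((htr _).add_const L).mul ((htr _).add_const L)).aestronglyMeasurable
      (Eventually.of_forall fun f => by
        rw [norm_mul]
        have h1 := B4_tr_bd hL (f (proj N κ y))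
        have h2 := B4_tr_bd hL (f (proj N κ (y + x)))
        refine mul_le_mul ?_ ?_ (norm_nonneg _) (by linarith)
        · rw [Real.norm_eq_abs, abs_le]
          constructor <;> linarith [h1.1, h1.2]
        · rw [Real.norm_eq_abs, abs_le]
          constructor <;> linarith [h2.1, h2.2])
  have e0 : ∀ f : Tor N → ℝ, gsum L x k (f ∘ proj N κ) =
      ∑ y ∈ box (k ^ 4 - (x.1.natAbs + x.2.natAbs)), (tr L (f (proj N κ y)) + L) *
      (tr L (f (proj N κ (y + x))) + L) := fun f => rfl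
  simp_rw [e0]
  rw [integral_finsetSum _ hi, Finset.sum_congr rfl fun y _ => hterm y, Finset.sum_const,
    nsmul_eq_mul]

/-- real form -/
theorem B4_real {ρ : ℝ → ℝ} (hρ : EdgeWeight ρ) {m : ℝ} (hm : 0 < m) {L : ℝ} (hL : 0 ≤ L)
    (x : ℤ × ℤ) {k : ℕ} (hr : x.1.natAbs + x.2.natAbs ≤ k ^ 4) {e δ : ℝ} (hδ : 0 ≤ δ)
    (he : 0 ≤ e)
    (he' : e ≤ 4 * L ^ 2 * (box (k ^ 4 - (x.1.natAbs + x.2.natAbs))).card)
    (h : ∀ ξ : ℤ × ℤ → ℝ, (∀ y ∈ box (k ^ 4 + 1), |ξ y| ≤ k) →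
      lm (box (k ^ 4)) (wt ρ m zstp (box (k ^ 4))) ξ ≠ 0 →
      |∫ f, gsum L x k f ∂gib (wt ρ m zstp (box (k ^ 4))) (box (k ^ 4)) ξ - e| ≤ δ)
    {N : ℕ} (hN : 2 * (k ^ 4 + 1) ≤ N) (κ : Bool) {q : ℝ}
    (hq : (muT ρ m N κ).real (B4_S N κ k)ᶜ ≤ q) :
    |∫ f, gsum L x k (f ∘ proj N κ) ∂muT ρ m N κ - e| ≤
      δ + 4 * L ^ 2 * (box (k ^ 4 - (x.1.natAbs + x.2.natAbs))).card * q := by
  have hP := muT_prob hρ hm N κ
  obtain ⟨hlo, hhi⟩ := B4_core hρ hm hL x hr h hN κ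
  set μ := muT ρ m N κ with hμ
  set S := B4_S N κ k with hS
  set A : ℝ := 4 * L ^ 2 * (box (k ^ 4 - (x.1.natAbs + x.2.natAbs))).card with hA
  have hA0 : 0 ≤ A := by positivity
  set G : (Tor N → ℝ) → ℝ := fun f => gsum L x k (f ∘ proj N κ) with hG
  have hGm : Measurable G := (B4_gsum_meas L x k).comp (B4_comp_meas N κ)
  have hG0 : ∀ f, 0 ≤ G f := fun f => B4_gsum_nonneg hL x k _
  have hGA : ∀ f, G f ≤ A := fun f => B4_gsum_le hL x k _
  have hGi : Integrable G μ := Integrable.of_bound (C := A) hGm.aestronglyMeasurable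
    (Eventually.of_forall fun f => by
      rw [Real.norm_eq_abs, abs_of_nonneg (hG0 f)]
      exact hGA f)
  have hSm : MeasurableSet S := B4_S_meas N κ k
  have hIS : ENNReal.ofReal (∫ f in S, G f ∂μ) = ∫⁻ f in S, ENNReal.ofReal (G f) ∂μ :=
    ofReal_integral_eq_lintegral_ofReal hGi.integrableOn
      (Eventually.of_forall fun f => hG0 f)
  have hIS0 : 0 ≤ ∫ f in S, G f ∂μ := integral_nonneg fun f => hG0 f
  have hIC0 : 0 ≤ ∫ f in Sᶜ, G f ∂μ := integral_nonneg fun f => hG0 f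
  have hsplit : ∫ f in S, G f ∂μ + ∫ f in Sᶜ, G f ∂μ = ∫ f, G f ∂μ :=
    integral_add_compl hSm hGi
  have hIC : ∫ f in Sᶜ, G f ∂μ ≤ A * μ.real Sᶜ := by
    calc ∫ f in Sᶜ, G f ∂μ ≤ ∫ _f in Sᶜ, A ∂μ :=
          integral_mono hGi.integrableOn (integrable_const _) hGA
      _ = A * μ.real Sᶜ := by
          rw [integral_const, smul_eq_mul, mul_comm]
          simp [measureReal_restrict_apply]
  have hμS : μ S = ENNReal.ofReal (μ.real S) := (ofReal_measureReal (measure_ne_top μ S)).symm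
  have hone : μ.real S + μ.real Sᶜ = 1 := by
    rw [measureReal_add_measureReal_compl hSm, probReal_univ]
  have hS0 : 0 ≤ μ.real S := measureReal_nonneg
  have hSc0 : 0 ≤ μ.real Sᶜ := measureReal_nonneg
  have hup : ∫ f in S, G f ∂μ ≤ (e + δ) * μ.real S := by
    have h1 : ENNReal.ofReal (∫ f in S, G f ∂μ) ≤ ENNReal.ofReal ((e + δ) * μ.real S) := by
      rw [hIS, ENNReal.ofReal_mul (by linarith), ← hμS]
      exact hhi
    exact (ENNReal.ofReal_le_ofReal_iff (mul_nonneg (by linarith) hS0)).1 h1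
  have hdn : (e - δ) * μ.real S ≤ ∫ f in S, G f ∂μ := by
    by_cases hed : e - δ ≤ 0
    · exact le_trans (mul_nonpos_of_nonpos_of_nonneg hed hS0) hIS0
    · have h1 : ENNReal.ofReal ((e - δ) * μ.real S) ≤ ENNReal.ofReal (∫ f in S, G f ∂μ) := by
        rw [hIS, ENNReal.ofReal_mul (by linarith), ← hμS]
        exact hlo
      exact (ENNReal.ofReal_le_ofReal_iff hIS0).1 h1
  have hS1 : μ.real S ≤ 1 := by linarith
  have hAq : A * μ.real Sᶜ ≤ A * q := mul_le_mul_of_nonneg_left hq hA0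
  rw [abs_le]
  constructor
  · have h2 : e * μ.real Sᶜ ≤ A * μ.real Sᶜ := mul_le_mul_of_nonneg_right he' hSc0
    have h3 : δ * μ.real S ≤ δ := mul_le_of_le_one_right hδ hS1
    have h4 : e * μ.real S = e - e * μ.real Sᶜ := by
      have : μ.real S = 1 - μ.real Sᶜ := by linarith
      rw [this]; ring
    have h5 : (e - δ) * μ.real S = e - e * μ.real Sᶜ - δ * μ.real S := by rw [sub_mul, h4]
    linarith
  · have h2 : (e + δ) * μ.real S ≤ e + δ := mul_le_of_le_one_right (by linarith) hS1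
    linarith

/-- the two tori have the same limits -/
theorem same_limit {ρ : ℝ → ℝ} (hρ : EdgeWeight ρ) {m : ℝ} (hm : 0 < m) {L : ℝ} (hL : 0 < L)
    (x : ℤ × ℤ) :
    Tendsto (fun N : ℕ => dN ρ m L N false x - dN ρ m L N true x) atTop (nhds 0) := by
  obtain ⟨C, hC0, hC⟩ := sixth hρ hm
  rw [Metric.tendsto_atTop]
  intro ε hε
  have hε8 : 0 < ε / 8 := by linarith
  have ev1 := influence hρ hm hL x hε8
  have ev2 : ∀ᶠ k : ℕ in atTop, 2 * (x.1.natAbs + x.2.natAbs) ≤ k ^ 4 := by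
    filter_upwards [eventually_ge_atTop (2 * (x.1.natAbs + x.2.natAbs))] with k hk
    exact le_trans hk (Nat.le_self_pow (by norm_num) k)
  have ev3 : ∀ᶠ k : ℕ in atTop, 4 * L ^ 2 * (16 * C / (k : ℝ) ^ 2) ≤ ε / 8 := by
    have ht : Tendsto (fun k : ℕ => 4 * L ^ 2 * (16 * C / (k : ℝ) ^ 2)) atTop (nhds 0) := by
      have h1 : Tendsto (fun k : ℕ => (k : ℝ) ^ 2) atTop atTop :=
        (tendsto_pow_atTop (by norm_num)).comp tendsto_natCast_atTop_atTop
      have h2 := (h1.const_div_atTop (16 * C)).const_mul (4 * L ^ 2)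
      rwa [mul_zero] at h2
    filter_upwards [ht.eventually_lt_const hε8] with k hk
    exact hk.le
  obtain ⟨k, hinf, hk2, hk3, hk0⟩ :=
    (ev1.and (ev2.and (ev3.and (eventually_gt_atTop 0)))).exists
  have hr : x.1.natAbs + x.2.natAbs ≤ k ^ 4 := by omega
  set e : ℝ := ∫ f, gsum L x k f ∂gib (wt ρ m zstp (box (k ^ 4))) (box (k ^ 4)) 0 with he
  set a : ℝ := ((box (k ^ 4 - (x.1.natAbs + x.2.natAbs))).card : ℝ) with ha
  have hk' : (0 : ℝ) < k := by exact_mod_cast hk0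
  have hak : (k : ℝ) ^ 8 ≤ a := by
    have h1 : k ^ 8 ≤ (box (k ^ 4 - (x.1.natAbs + x.2.natAbs))).card := by
      rw [B4_box_card]
      calc k ^ 8 = (k ^ 4) ^ 2 := by ring
        _ ≤ (2 * (k ^ 4 - (x.1.natAbs + x.2.natAbs)) + 1) ^ 2 := by
          refine Nat.pow_le_pow_left ?_ 2
          omega
    rw [ha]
    exact_mod_cast h1
  have ha0 : 0 < a := lt_of_lt_of_le (by positivity) hak
  have hZ0 : lm (box (k ^ 4)) (wt ρ m zstp (box (k ^ 4))) 0 ≠ 0 := by
    have := lm_wt_pos_const hρ m zstp (box (k ^ 4)) 0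
    exact this.ne'
  have hP0 := gib_prob (nice_wt hρ m zstp (box (k ^ 4))).meas (box (k ^ 4)) 0 hZ0
    (lm_wt_lt_top hρ hm zstp (box (k ^ 4)) 0).ne
  have he0 : 0 ≤ e := integral_nonneg fun f => B4_gsum_nonneg hL.le x k f
  have heA : e ≤ 4 * L ^ 2 * (box (k ^ 4 - (x.1.natAbs + x.2.natAbs))).card := by
    have hi : Integrable (gsum L x k) (gib (wt ρ m zstp (box (k ^ 4))) (box (k ^ 4)) 0) := by
      refine Integrable.of_bound (C := 4 * L ^ 2 *
        (box (k ^ 4 - (x.1.natAbs + x.2.natAbs))).card)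
        (B4_gsum_meas L x k).aestronglyMeasurable (Eventually.of_forall fun f => ?_)
      rw [Real.norm_eq_abs, abs_of_nonneg (B4_gsum_nonneg hL.le x k f)]
      exact B4_gsum_le hL.le x k f
    calc e ≤ ∫ _f, 4 * L ^ 2 * ((box (k ^ 4 - (x.1.natAbs + x.2.natAbs))).card : ℝ)
          ∂gib (wt ρ m zstp (box (k ^ 4))) (box (k ^ 4)) 0 :=
          integral_mono hi (integrable_const _) fun f => B4_gsum_le hL.le x k f
      _ = _ := by rw [integral_const, probReal_univ, one_smul]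
  have hmain : ∀ N : ℕ, 2 * (k ^ 4 + 1) ≤ N → ∀ κ : Bool,
      |dN ρ m L N κ x + L ^ 2 - e / a| ≤ ε / 4 := by
    intro N hN κ
    have h1 := B4_real hρ hm hL.le x hr (e := e) (δ := ε / 8 * (k : ℝ) ^ 8) (by positivity)
      he0 heA (fun ξ hξ hZ => hinf ξ hξ hZ) hN κ (B4_markov hρ hm hC N κ hk0)
    rw [B4_avg hρ hm hL.le x k N κ] at h1
    have h2 : |a * (dN ρ m L N κ x + L ^ 2) - e| ≤ a * (ε / 4) := by
      refine le_trans h1 ?_
      have h3 : ε / 8 * (k : ℝ) ^ 8 ≤ ε / 8 * a := mul_le_mul_of_nonneg_left hak hε8.le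
      have h4 : 4 * L ^ 2 * a * (16 * C / (k : ℝ) ^ 2) ≤ a * (ε / 8) := by
        calc 4 * L ^ 2 * a * (16 * C / (k : ℝ) ^ 2) =
            a * (4 * L ^ 2 * (16 * C / (k : ℝ) ^ 2)) := by ring
          _ ≤ a * (ε / 8) := mul_le_mul_of_nonneg_left hk3 ha0.le
      linarith
    have h5 : a * (dN ρ m L N κ x + L ^ 2) - e = a * (dN ρ m L N κ x + L ^ 2 - e / a) := by
      field_simp
    rw [h5, abs_mul, abs_of_pos ha0] at h2
    exact le_of_mul_le_mul_left h2 ha0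
  refine ⟨2 * (k ^ 4 + 1), fun N hN => ?_⟩
  have h1 := abs_le.1 (hmain N hN false)
  have h2 := abs_le.1 (hmain N hN true)
  rw [Real.dist_eq, sub_zero]
  have : |dN ρ m L N false x - dN ρ m L N true x| ≤ ε / 2 := by
    rw [abs_le]
    constructor <;> linarith [h1.1, h1.2, h2.1, h2.2]
  linarith

end Pool.Agent.HM
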